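import Mathlib
import Pool.Agent.H353R3.S8

open Filter Topology
open scoped ContDiff

namespace Pool.Agent.Results.MP_5a4862_nt.FareyCutoffs

/-- The Farey sequence of order `n`: the rationals in `(0, 1]` with denominator at most `n`. -/
noncomputable def farey (n : ℕ) : Finset ℚ :=
  ((Finset.Icc 1 n ×ˢ Finset.Icc 1 n).image (fun p : ℕ × ℕ => (p.1 : ℚ) / (p.2 : ℚ))).filter
    (fun q : ℚ => q ≤ 1)

/-- The discrepancy function of the Farey sequence of order `n`: the number of its terms that are at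
most `t`, minus `t` times the number of all its terms. -/
noncomputable def disc (n : ℕ) (t : ℝ) : ℝ :=
  (((farey n).filter (fun f : ℚ => (f : ℝ) ≤ t)).card : ℝ) - (farey n).card * t

/-- `W` is a smooth function passing from `0` at `1` to `1` at `A`, and the average of the
discrepancy functions of the Farey sequences of order `n ≤ x` with the weights
`W (x / n) - W (x / (n + 1))` (of sum `1`, and `0` unless `x < A (n + 1)`) has mean square
`O(x^(2 r))`. -/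
def Cutoff (r A : ℝ) (W : ℝ → ℝ) : Prop :=
  ContDiff ℝ ∞ W ∧ (∀ y ≤ 1, W y = 0) ∧ (∀ y, A ≤ y → W y = 1) ∧
    ∃ C : ℝ, ∀ x : ℝ, 1 ≤ x →
      ∫ t in (0:ℝ)..1, (∑ n ∈ Finset.Icc 1 ⌊x⌋₊, (W (x / n) - W (x / (n + 1))) * disc n t) ^ 2 ≤
        C * x ^ (2 * r)

/-- Unconditionally, at every scale `A > 1` and for every `r > 1/2` some smooth cutoff brings the
mean square of the averaged Farey discrepancy down to `O(x^(2 r))`; nondecreasing cutoffs do so at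
large enough scales; and `ζ` has no zero with real part larger than `θ₀` exactly when nondecreasing
cutoffs do so at every scale, for every `r > θ₀`. -/
theorem result :
    (∀ r A : ℝ, 1 / 2 < r → r < 1 → 1 < A → ∃ W, Cutoff r A W) ∧
    (∃ A : ℝ → ℝ, Tendsto A (𝓝[<] 1) (𝓝 1) ∧
      ∀ r : ℝ, 1 / 2 < r → r < 1 → ∃ W, Cutoff r (A r) W ∧ Monotone W) ∧
    ∀ θ₀ : ℝ, 1 / 2 ≤ θ₀ → θ₀ < 1 →
      ((∀ r A : ℝ, θ₀ < r → r < 1 → 1 < A → ∃ W, Cutoff r A W ∧ Monotone W) ↔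
        ∀ s : ℂ, θ₀ < s.re → riemannZeta s ≠ 0) := by
  obtain ⟨h1, ⟨A0, hA0, h2⟩, _⟩ := H353.main_fa
  refine ⟨fun r A a b c => ?_, ⟨A0, hA0, fun r a b => ?_⟩,
    fun θ₀ k1 k2 => ⟨fun h => ?_, fun h r A a b c => ?_⟩⟩
  · obtain ⟨W, ⟨w1, w2, w3⟩, w4⟩ := h1 r A a b c
    exact ⟨W, w1, w2, w3, w4⟩
  · obtain ⟨W, ⟨w1, w2, w3⟩, w5, w4⟩ := h2 r a b
    exact ⟨W, ⟨w1, w2, w3, w4⟩, w5⟩
  · intro s hs
    by_cases hs1 : s.re < 1
    · have h3 : θ₀ < (θ₀ + s.re) / 2 := by linarith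
      refine H353.W_free ((θ₀ + s.re) / 2) (by linarith) (by linarith) (fun A hA => ?_) s
        (by linarith)
      obtain ⟨W, ⟨w1, w2, w3, w4⟩, w5⟩ := h ((θ₀ + s.re) / 2) A h3 (by linarith) hA
      exact ⟨W, ⟨w1, w2, w3⟩, w5,
        Or.inl ((H353.bdF_iff _ (by linarith) hA ⟨w1, w2, w3⟩).1 w4)⟩
    · exact riemannZeta_ne_zero_of_one_le_re (not_lt.1 hs1)
  · obtain ⟨W, ⟨w1, w2, w3⟩, w5, w4, _⟩ := H353.W_mono_of_free A ((θ₀ + r) / 2) r c (by linarith)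
      (by linarith) b (fun s hs _ => h s (by linarith))
    exact ⟨W, ⟨w1, w2, w3, (H353.bdF_iff r (by linarith) c ⟨w1, w2, w3⟩).2 w4⟩, w5⟩

end Pool.Agent.Results.MP_5a4862_nt.FareyCutoffs
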