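import Mathlib
import Pool.Agent.H313R3.OS.D

/-!
# A zero-free half-plane and one-sided information on the primes in sparse short windows

The existence of a zero-free half-plane `Re s ≥ σ₀`, `σ₀ < 1`, is equivalent to *one-sided* information on the
primes in an arbitrarily sparse sequence of arbitrarily short windows `[x, (1+η)x]`:

* for any fixed ratio `lam > 1`: `ψ(lam y) - ψ(y) ≤ (lam - 1) y + x^θ` for all `y` in the window;
* or: every subinterval `(y, z]` of the window contains at most `∫_y^z dt / log t + x^θ` primes;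
* and likewise with `≥` and `- x^θ`.

Here `η > 0` and `θ < 1` are any numbers and `x` runs through any unbounded set.  Quantitatively, there is a
function `A(θ) → 1` (`θ → 1`) such that a bound `O(x^(1+θ))` for the integral of the positive part of
`±(ψ(lam y) - ψ(y) - (lam-1) y)` over `[x, A(θ) x]`, for arbitrarily large `x`, excludes all zeros with `Re ρ > θ`.

Proof.  There is a smooth nondecreasing step function `g` of length `log A(θ)` whose Laplace transform vanishes at all
zeros with real part `≥ σ = 1/2 + θ (θ - 1/2) < θ` (an infinite convolution of two-point averages, convergent by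
the density theorem).  The convolution of `g'` with `ψ(e^u) - e^u` is `O(e^(θt))`; since `g' ≥ 0`, one-sided
smallness on a window therefore gives two-sided smallness in the mean on a subwindow.  By the visibility of each
single zero in every window (variation of constants for the operators killing it), there are no zeros
with real part `> θ`.
-/

open Filter Set Topology

namespace Pool.Agent.Results.MP_5a4862_nt.OneSidedPrimes

/-- The number of primes `≤ y`. -/
noncomputable def primesUpTo (y : ℝ) : ℝ := (Nat.primeCounting ⌊y⌋₊ : ℝ)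

/-- Q1: the zeta function has a zero-free half-plane `Re s ≥ σ₀` with `1/2 < σ₀ < 1`. -/
def HasZeroFreeHalfPlane : Prop :=
  ∃ σ₀ : ℝ, 1 / 2 < σ₀ ∧ σ₀ < 1 ∧ ∀ s : ℂ, σ₀ ≤ s.re → riemannZeta s ≠ 0

/-- The error term for the primes (and prime powers, weighted by `Λ`) in `(y, lam y]`. -/
noncomputable def ratioError (lam y : ℝ) : ℝ :=
  Chebyshev.psi (lam * y) - Chebyshev.psi y - (lam - 1) * y

theorem result :
    (∃ A : ℝ → ℝ, Tendsto A (𝓝[<] 1) (𝓝 1) ∧ (∀ θ : ℝ, θ < 1 → 1 < A θ) ∧
      ∀ s : ℝ, s = 1 ∨ s = -1 → ∀ lam : ℝ, 1 < lam → ∀ θ C : ℝ, 1 / 2 < θ → θ < 1 →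
        (∃ᶠ x : ℝ in atTop, ∫ y in x..A θ * x, max (s * ratioError lam y) 0 ≤ C * x ^ (1 + θ)) →
        ∀ ρ : ℂ, θ < ρ.re → riemannZeta ρ ≠ 0) ∧
    (∀ s : ℝ, s = 1 ∨ s = -1 → ∀ lam : ℝ, 1 < lam →
      (HasZeroFreeHalfPlane ↔ ∃ η θ : ℝ, 0 < η ∧ θ < 1 ∧
        ∃ᶠ x : ℝ in atTop, ∀ y ∈ Icc x ((1 + η) * x), s * ratioError lam y ≤ x ^ θ)) ∧
    (∀ s : ℝ, s = 1 ∨ s = -1 →
      (HasZeroFreeHalfPlane ↔ ∃ η θ : ℝ, 0 < η ∧ θ < 1 ∧
        ∃ᶠ x : ℝ in atTop, ∀ y z : ℝ, x ≤ y → y ≤ z → z ≤ (1 + η) * x →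
          s * (primesUpTo z - primesUpTo y - ∫ t in y..z, 1 / Real.log t) ≤ x ^ θ)) := by
  refine ⟨⟨H353.AA, H353.AA_tendsto, H313.LW.AA_gt, ?_⟩, ?_, ?_⟩
  · intro s hs lam hl θ C h1 h2 hf ρ hρ
    exact H313.OS.one_sided_psi s hs θ h1 h2 C lam hl hf ρ hρ
  · intro s hs lam hl
    exact H313.OS.q1_psi s hs lam hl
  · intro s hs
    exact H313.OS.q1_pi s hs

end Pool.Agent.Results.MP_5a4862_nt.OneSidedPrimes
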