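import Mathlib
import Pool.Agent.H353R3.S8

open Filter Topology
open scoped ContDiff

namespace Pool.Agent.Results.MP_5a4862_nt.PrimeCutoffs

/-- `W` is a smooth function passing from `0` at `1` to `1` at `A`, and the sum over the primes
smoothed by `W` differs from the corresponding sum over all integers by `O(x^θ)`. -/
def Cutoff (θ A : ℝ) (W : ℝ → ℝ) : Prop :=
  ContDiff ℝ ∞ W ∧ (∀ y ≤ 1, W y = 0) ∧ (∀ y, A ≤ y → W y = 1) ∧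
    ∃ C : ℝ, ∀ x : ℝ, 1 ≤ x →
      |∑ p ∈ (Finset.Icc 1 ⌊x⌋₊).filter Nat.Prime, Real.log p * W (x / p) -
        ∑ n ∈ Finset.Icc 1 ⌊x⌋₊, W (x / n)| ≤ C * x ^ θ

/-- Unconditionally, at every scale `A > 1` and for every `θ > 1/2` some smooth cutoff counts the
primes with error `O(x^θ)`; nondecreasing cutoffs do so at large enough scales; and `ζ` has no zero
with real part larger than `θ₀` exactly when nondecreasing cutoffs do so at every scale, for every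
`θ > θ₀`. -/
theorem result :
    (∀ θ A : ℝ, 1 / 2 < θ → θ < 1 → 1 < A → ∃ W, Cutoff θ A W) ∧
    (∃ A : ℝ → ℝ, Tendsto A (𝓝[<] 1) (𝓝 1) ∧
      ∀ θ : ℝ, 1 / 2 < θ → θ < 1 → ∃ W, Cutoff θ (A θ) W ∧ Monotone W) ∧
    ∀ θ₀ : ℝ, 1 / 2 ≤ θ₀ → θ₀ < 1 →
      ((∀ θ A : ℝ, θ₀ < θ → θ < 1 → 1 < A → ∃ W, Cutoff θ A W ∧ Monotone W) ↔
        ∀ s : ℂ, θ₀ < s.re → riemannZeta s ≠ 0) := by
  obtain ⟨h1, ⟨A0, hA0, h2⟩, h3⟩ := H353.main_pr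
  refine ⟨fun θ A a b c => ?_, ⟨A0, hA0, fun θ a b => ?_⟩,
    fun θ₀ k1 k2 => ⟨fun h => ?_, fun h θ A a b c => ?_⟩⟩
  · obtain ⟨W, ⟨w1, w2, w3⟩, w4⟩ := h1 θ A a b c
    exact ⟨W, w1, w2, w3, w4⟩
  · obtain ⟨W, ⟨w1, w2, w3⟩, w5, w4⟩ := h2 θ a b
    exact ⟨W, ⟨w1, w2, w3, w4⟩, w5⟩
  · refine (h3 θ₀ k1 k2).1 fun θ A a b c => ?_
    obtain ⟨W, ⟨w1, w2, w3, w4⟩, w5⟩ := h θ A a b c
    exact ⟨W, ⟨w1, w2, w3⟩, w5, w4⟩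
  · obtain ⟨W, ⟨w1, w2, w3⟩, w5, w4⟩ := (h3 θ₀ k1 k2).2 h θ A a b c
    exact ⟨W, ⟨w1, w2, w3, w4⟩, w5⟩

end Pool.Agent.Results.MP_5a4862_nt.PrimeCutoffs
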