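import Pool.Agent.H353R2.P4
import Pool.Agent.H353R3.S8

set_option autoImplicit false

namespace Pool.Agent.Results.MP_5a4862_nt.ThinnedMertens

/-- `∑ a(p) / p^σ` converges for some `σ < 1`. -/
def Sparse (a : ℕ → ℝ) : Prop :=
  ∃ σ < (1 : ℝ), Summable (fun p : Nat.Primes => a p / ((p : ℕ) : ℝ) ^ σ)

/-- The Mertens sum weighted by `g` is at most `C x^θ`. -/
def Bound (g : ℕ → ℝ) (θ C : ℝ) : Prop :=
  ∀ x : ℝ, 1 ≤ x → |∑ n ∈ Finset.Icc 1 ⌊x⌋₊, (ArithmeticFunction.moebius n : ℝ) * g n| ≤ C * x ^ θ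

lemma free_of (θ C : ℝ) (h1 : θ < 1)
    (hM : ∀ x : ℝ, 1 ≤ x →
      |∑ n ∈ Finset.Icc 1 ⌊x⌋₊, (ArithmeticFunction.moebius n : ℝ)| ≤ C * x ^ θ) :
    ∃ θ' < (1 : ℝ), ∀ s : ℂ, θ' < s.re → riemannZeta s ≠ 0 := by
  have hC : 0 ≤ C := by
    have := (abs_nonneg _).trans (hM 1 le_rfl)
    simpa using this
  refine ⟨max θ 0, max_lt h1 one_pos, ?_⟩
  refine H353.zero_free_of_M (max θ 0) C (le_max_right _ _) (max_lt h1 one_pos) ?_
  intro x hx
  refine (hM x hx).trans ?_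
  exact mul_le_mul_of_nonneg_left
    (Real.rpow_le_rpow_of_exponent_le hx (le_max_left _ _)) hC

/-- Let `g` be completely multiplicative with values in `[0, 1]` at the primes. The sums
`∑_{n ≤ x} μ(n) g(n)` are `O(x^θ)` for some `θ < 1` if and only if either the `g(p)` are sparse, or
the `1 - g(p)` are sparse and `ζ` has a zero-free half-plane `Re s > θ'`, `θ' < 1`. If the exponent
`θ` is reached by a `g` which is not sparse, then `θ ≥ 1/2` and `ζ` has no zero with `Re s > θ`. -/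
theorem result (g : ℕ →*₀ ℝ) (hg : ∀ p : ℕ, p.Prime → 0 ≤ g p ∧ g p ≤ 1) :
    ((∃ θ < (1 : ℝ), ∃ C : ℝ, Bound g θ C) ↔
      (Sparse g ∨ (Sparse (fun n => 1 - g n) ∧
        ∃ θ < (1 : ℝ), ∀ s : ℂ, θ < s.re → riemannZeta s ≠ 0))) ∧
    ∀ θ < (1 : ℝ), ∀ C : ℝ, Bound g θ C → Sparse g ∨
      (1 / 2 ≤ θ ∧
        (∀ θ' : ℝ, θ < θ' → Summable (fun p : Nat.Primes => (1 - g p) / ((p : ℕ) : ℝ) ^ θ')) ∧
        ∀ s : ℂ, θ < s.re → riemannZeta s ≠ 0) := by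
  obtain ⟨h1, h2⟩ := H353.thinned_main g hg
  refine ⟨?_, ?_⟩
  · refine h1.trans (or_congr Iff.rfl (and_congr Iff.rfl ⟨?_, ?_⟩))
    · rintro ⟨θ, hθ, C, hM⟩
      exact free_of θ C hθ hM
    · rintro ⟨θ, hθ, hz⟩
      have hz' : ∀ s : ℂ, max θ (1 / 2) < s.re → riemannZeta s ≠ 0 :=
        fun s hs => hz s (lt_of_le_of_lt (le_max_left _ _) hs)
      have hlt : max θ (1 / 2) < 1 := max_lt hθ (by norm_num)
      refine ⟨(max θ (1 / 2) + 1) / 2, by linarith, ?_⟩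
      exact H353.mertens_of_free (max θ (1 / 2)) (le_max_right _ _) hz' _ (by linarith)
  · intro θ hθ C hB
    rcases h2 θ hθ C hB with h | ⟨h3, h4⟩
    · exact Or.inl h
    · refine Or.inr ⟨h3, fun θ' hθ' => (h4 θ' hθ').1, ?_⟩
      intro s hs
      rcases le_or_gt 1 s.re with h5 | h5
      · exact riemannZeta_ne_zero_of_one_le_re h5
      · obtain ⟨C', hM⟩ := (h4 ((θ + s.re) / 2) (by linarith)).2
        exact H353.zero_free_of_M ((θ + s.re) / 2) C' (by linarith) (by linarith) hM s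
          (by linarith)

end Pool.Agent.Results.MP_5a4862_nt.ThinnedMertens
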